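import Mathlib

/-!
Small divisors for the rotation by `2 * pi * sqrt 2`, and Siegel's estimate for the
quadratic majorant recursion.
-/

namespace Pool.Agent.H703R2.SmallDiv

open Finset

/-- The multiplier `exp (2 pi i sqrt 2)`. -/
noncomputable def kap : ℂ := Complex.exp (Complex.I * ((2 * Real.pi * Real.sqrt 2 : ℝ) : ℂ))

theorem norm_kap : ‖kap‖ = 1 := by
  unfold kap; exact Complex.norm_exp_I_mul_ofReal _

theorem kap_ne_zero : kap ≠ 0 := by
  intro h; have := norm_kap; rw [h] at this; simp at this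

theorem kap_pow (n : ℕ) (m : ℤ) :
    kap ^ n = Complex.exp (Complex.I * ((2 * Real.pi * (n * Real.sqrt 2 - m) : ℝ) : ℂ)) := by
  unfold kap
  rw [← Complex.exp_nat_mul, Complex.exp_eq_exp_iff_exists_int]
  refine ⟨m, ?_⟩
  push_cast
  ring

theorem sq_ne (n : ℕ) (hn : 1 ≤ n) (m : ℤ) : (2 * (n:ℤ)^2 - m^2 : ℤ) ≠ 0 := by
  intro h
  have hirr : Irrational (Real.sqrt 2) := irrational_sqrt_two
  apply hirr
  have hn0 : (n:ℝ) ≠ 0 := by positivity
  refine ⟨|(m:ℚ)| / n, ?_⟩
  have h2 : (m:ℝ)^2 = 2 * (n:ℝ)^2 := by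
    have : ((2 * (n:ℤ)^2 - m^2 : ℤ) : ℝ) = 0 := by rw [h]; simp
    push_cast at this
    linarith
  have h3 : Real.sqrt 2 = |(m:ℝ)| / n := by
    rw [eq_div_iff hn0]
    have h4 : (Real.sqrt 2 * n)^2 = |(m:ℝ)|^2 := by
      rw [mul_pow, Real.sq_sqrt (by norm_num), sq_abs, h2]
    have := (sq_eq_sq₀ (by positivity) (abs_nonneg _)).1 h4
    exact this
  rw [h3]
  push_cast
  rfl

theorem dist_lower (n : ℕ) (hn : 1 ≤ n) (m : ℤ) (hm : |(n:ℝ) * Real.sqrt 2 - m| ≤ 1 / 2) :
    1 / (4 * (n:ℝ)) ≤ |(n:ℝ) * Real.sqrt 2 - m| := by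
  have hn1 : (1:ℝ) ≤ n := by exact_mod_cast hn
  have hs : Real.sqrt 2 ^ 2 = 2 := Real.sq_sqrt (by norm_num)
  have hs0 : 0 ≤ Real.sqrt 2 := Real.sqrt_nonneg 2
  have hs2 : Real.sqrt 2 ≤ 3 / 2 := by
    rw [Real.sqrt_le_left (by norm_num)]; norm_num
  have hprod : |(n:ℝ) * Real.sqrt 2 - m| * |(n:ℝ) * Real.sqrt 2 + m| ≥ 1 := by
    rw [← abs_mul]
    have : ((n:ℝ) * Real.sqrt 2 - m) * ((n:ℝ) * Real.sqrt 2 + m) = ((2 * (n:ℤ)^2 - m^2 : ℤ) : ℝ) := by
      push_cast
      have : ((n:ℝ) * Real.sqrt 2 - m) * ((n:ℝ) * Real.sqrt 2 + m)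
        = (n:ℝ)^2 * (Real.sqrt 2)^2 - m^2 := by ring
      rw [this, hs]; ring
    rw [this]
    have h1 := Int.one_le_abs (sq_ne n hn m)
    exact_mod_cast h1
  have hplus : |(n:ℝ) * Real.sqrt 2 + m| ≤ 4 * n := by
    have h1 := abs_le.1 hm
    rw [abs_le]
    constructor <;> nlinarith
  rw [div_le_iff₀ (by positivity)]
  calc (1:ℝ) ≤ |(n:ℝ) * Real.sqrt 2 - m| * |(n:ℝ) * Real.sqrt 2 + m| := hprod
    _ ≤ |(n:ℝ) * Real.sqrt 2 - m| * (4 * n) :=
      mul_le_mul_of_nonneg_left hplus (abs_nonneg _)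

theorem kap_lower (n : ℕ) (hn : 1 ≤ n) : 1 / (n:ℝ) ≤ ‖kap ^ n - 1‖ := by
  set m : ℤ := round ((n:ℝ) * Real.sqrt 2) with hm
  have hx : |(n:ℝ) * Real.sqrt 2 - m| ≤ 1 / 2 := abs_sub_round _
  have hd := dist_lower n hn m hx
  rw [kap_pow n m, Complex.norm_exp_I_mul_ofReal_sub_one]
  have hn1 : (1:ℝ) ≤ n := by exact_mod_cast hn
  set x : ℝ := (n:ℝ) * Real.sqrt 2 - m with hxdef
  have hpi := Real.pi_pos
  have h1 : 2 / Real.pi * |Real.pi * x| ≤ |Real.sin (Real.pi * x)| := by
    apply Real.mul_abs_le_abs_sin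
    rw [abs_mul, abs_of_pos hpi]
    nlinarith
  have h2 : 2 * Real.pi * x / 2 = Real.pi * x := by ring
  rw [h2]
  rw [Real.norm_eq_abs, abs_mul, abs_of_pos (by norm_num : (0:ℝ) < 2)]
  have h3 : 2 / Real.pi * |Real.pi * x| = 2 * |x| := by
    rw [abs_mul, abs_of_pos hpi]; field_simp
  rw [h3] at h1
  calc 1 / (n:ℝ) = 4 * (1 / (4 * (n:ℝ))) := by field_simp
    _ ≤ 4 * |x| := by linarith
    _ ≤ 2 * |Real.sin (Real.pi * x)| := by linarith

/-- The inverse small divisor. -/
noncomputable def e (m : ℕ) : ℝ := ‖kap ^ m - 1‖⁻¹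

theorem e_nonneg (m : ℕ) : 0 ≤ e m := inv_nonneg.2 (norm_nonneg _)

theorem norm_pos (m : ℕ) (hm : 1 ≤ m) : 0 < ‖kap ^ m - 1‖ := by
  have h := kap_lower m hm
  have hn1 : (1:ℝ) ≤ m := by exact_mod_cast hm
  have : (0:ℝ) < 1 / m := by positivity
  linarith

theorem e_le (m : ℕ) (hm : 1 ≤ m) : e m ≤ m := by
  unfold e
  have h := kap_lower m hm
  have hn1 : (1:ℝ) ≤ m := by exact_mod_cast hm
  rw [inv_le_comm₀ (norm_pos m hm) (by positivity)]
  simpa using h

theorem e_gap (m m' : ℕ) (hm : 1 ≤ m) (h : m < m') (T : ℝ) (h1 : T < e m) (h2 : T < e m')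
    (hT : 0 < T) : T < 2 * ((m' - m : ℕ) : ℝ) := by
  by_contra hcon
  push Not at hcon
  have hd : 1 ≤ m' - m := by omega
  have hlow := kap_lower (m' - m) hd
  have hdpos : (0:ℝ) < ((m' - m : ℕ) : ℝ) := by exact_mod_cast hd
  have hk : ‖kap ^ (m' - m) - 1‖ = ‖kap ^ m' - kap ^ m‖ := by
    have : kap ^ m' - kap ^ m = kap ^ m * (kap ^ (m' - m) - 1) := by
      rw [mul_sub, ← pow_add, mul_one]
      congr 2
      omega
    rw [this, norm_mul, norm_pow, norm_kap, one_pow, one_mul]
  have htri : ‖kap ^ m' - kap ^ m‖ ≤ ‖kap ^ m' - 1‖ + ‖kap ^ m - 1‖ := by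
    have : kap ^ m' - kap ^ m = (kap ^ m' - 1) - (kap ^ m - 1) := by ring
    rw [this]; exact norm_sub_le _ _
  have ha : ‖kap ^ m - 1‖ < T⁻¹ := by
    unfold e at h1
    exact (lt_inv_comm₀ hT (norm_pos m hm)).1 h1
  have hb : ‖kap ^ m' - 1‖ < T⁻¹ := by
    unfold e at h2
    exact (lt_inv_comm₀ hT (norm_pos m' (by omega))).1 h2
  have hc : 2 * T⁻¹ ≤ 1 / ((m' - m : ℕ) : ℝ) := by
    rw [le_div_iff₀ hdpos]
    have : 2 * T⁻¹ * ((m' - m : ℕ) : ℝ) = (2 * ((m' - m : ℕ) : ℝ)) * T⁻¹ := by ring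
    rw [this]
    calc (2 * ((m' - m : ℕ) : ℝ)) * T⁻¹ ≤ T * T⁻¹ :=
          mul_le_mul_of_nonneg_right hcon (by positivity)
      _ = 1 := mul_inv_cancel₀ hT.ne'
  linarith [hk ▸ hlow]

open Classical in
/-- Indicator of the `m`-th divisor being small at level `j`. -/
noncomputable def chi (j m : ℕ) : ℕ := if (2:ℝ) ^ j < e m then 1 else 0

/-- Maximal number of level `j` small divisors in a binary tree with `n` leaves. -/
noncomputable def Nc (j : ℕ) : ℕ → ℕ
  | 0 => 0
  | 1 => 0
  | (n + 2) => chi j (n + 1) +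
      (Finset.univ : Finset (Fin (n + 1))).sup
        (fun k => Nc j (k.1 + 1) + Nc j (n + 1 - k.1))
termination_by n => n
decreasing_by
  · omega
  · omega

theorem Nc_add_le (j a b : ℕ) (ha : 1 ≤ a) (hb : 1 ≤ b) :
    chi j (a + b - 1) + (Nc j a + Nc j b) ≤ Nc j (a + b) := by
  obtain ⟨n, hn⟩ : ∃ n, a + b = n + 2 := ⟨a + b - 2, by omega⟩
  rw [hn, Nc]
  have h1 : n + 2 - 1 = n + 1 := by omega
  rw [h1]
  apply Nat.add_le_add_left
  have := Finset.le_sup (f := fun k : Fin (n + 1) => Nc j (k.1 + 1) + Nc j (n + 1 - k.1))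
    (Finset.mem_univ (⟨a - 1, by omega⟩ : Fin (n + 1)))
  refine le_trans (le_of_eq ?_) this
  simp only
  have e1 : a - 1 + 1 = a := by omega
  have e2 : n + 1 - (a - 1) = b := by omega
  rw [e1, e2]

theorem Nc_exists (j n : ℕ) (hn : 2 ≤ n) :
    ∃ a b, 1 ≤ b ∧ b ≤ a ∧ a + b = n ∧ Nc j n = chi j (n - 1) + (Nc j a + Nc j b) := by
  obtain ⟨m, rfl⟩ : ∃ m, n = m + 2 := ⟨n - 2, by omega⟩
  obtain ⟨k, -, hk⟩ := Finset.exists_mem_eq_sup (Finset.univ : Finset (Fin (m + 1)))
    (Finset.univ_nonempty) (fun k => Nc j (k.1 + 1) + Nc j (m + 1 - k.1))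
  have hk2 := k.2
  have hN : Nc j (m + 2) = chi j (m + 1) + (Nc j (k.1 + 1) + Nc j (m + 1 - k.1)) := by
    rw [Nc, hk]
  rcases le_total (k.1 + 1) (m + 1 - k.1) with h | h
  · refine ⟨m + 1 - k.1, k.1 + 1, by omega, h, by omega, ?_⟩
    rw [hN]
    have : m + 2 - 1 = m + 1 := by omega
    rw [this, Nat.add_comm (Nc j (k.1 + 1))]
  · refine ⟨k.1 + 1, m + 1 - k.1, by omega, h, by omega, ?_⟩
    rw [hN]
    have : m + 2 - 1 = m + 1 := by omega
    rw [this]

theorem chi_le_one (j m : ℕ) : chi j m ≤ 1 := by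
  unfold chi; split <;> omega

/-- A level `j + 1` bad index is larger than `2 ^ (j + 1)`. -/
theorem chi_pos_lt (j m : ℕ) (hm : 1 ≤ m) (h : chi j m = 1) : 2 ^ j < m := by
  unfold chi at h
  split at h
  · rename_i h1
    have := lt_of_lt_of_le h1 (e_le m hm)
    exact_mod_cast this
  · omega

theorem chi_gap (j m m' : ℕ) (hm : 1 ≤ m) (hlt : m < m') (h : chi (j + 1) m = 1)
    (h' : chi (j + 1) m' = 1) : 2 ^ j < m' - m := by
  unfold chi at h h'
  split at h
  · rename_i h1
    split at h'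
    · rename_i h2
      have := e_gap m m' hm hlt _ h1 h2 (by positivity)
      rw [pow_succ] at this
      have h3 : (2:ℝ) ^ j < ((m' - m : ℕ) : ℝ) := by linarith
      exact_mod_cast h3
    · omega
  · omega

theorem Nc_zero_le (j n : ℕ) (hn : 1 ≤ n) : Nc j n + 1 ≤ n := by
  induction n using Nat.strong_induction_on with
  | _ n ih =>
    rcases Nat.lt_or_ge n 2 with h | h
    · have : n = 1 := by omega
      subst this
      simp [Nc]
    · obtain ⟨a, b, hb, hab, hs, hN⟩ := Nc_exists j n h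
      have h1 := ih a (by omega) (by omega)
      have h2 := ih b (by omega) (by omega)
      have h3 := chi_le_one j (n - 1)
      omega

/-- The counting lemma. -/
theorem Nc_count (j n : ℕ) (hn : 1 ≤ n) :
    (n ≤ 2 ^ j → Nc (j + 1) n = 0) ∧
      (2 ^ j ≤ n → 2 ^ j * Nc (j + 1) n + 2 ^ j ≤ 2 * n) := by
  induction n using Nat.strong_induction_on with
  | _ n ih =>
    set q := 2 ^ j with hq
    have hq1 : 1 ≤ q := Nat.one_le_two_pow
    have hzero : n ≤ q → Nc (j + 1) n = 0 := by
      intro hle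
      rcases Nat.lt_or_ge n 2 with h | h
      · have : n = 1 := by omega
        subst this
        simp [Nc]
      · obtain ⟨a, b, hb, hab, hs, hN⟩ := Nc_exists (j + 1) n h
        have h1 := (ih a (by omega) (by omega)).1 (by omega)
        have h2 := (ih b (by omega) (by omega)).1 (by omega)
        have h3 : chi (j + 1) (n - 1) = 0 := by
          by_contra hc
          have hc1 : chi (j + 1) (n - 1) = 1 := by
            have := chi_le_one (j + 1) (n - 1); omega
          have := chi_pos_lt (j + 1) (n - 1) (by omega) hc1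
          rw [pow_succ] at this
          omega
        rw [hN, h1, h2, h3]
    refine ⟨hzero, fun hge => ?_⟩
    rcases Nat.eq_or_lt_of_le hge with heq | hgt
    · rw [hzero (le_of_eq heq.symm)]; omega
    have h2 : 2 ≤ n := by omega
    obtain ⟨a, b, hb, hab, hs, hN⟩ := Nc_exists (j + 1) n h2
    by_cases hchi : chi (j + 1) (n - 1) = 1
    · -- bad root
      have hbig : 2 * q < n - 1 := by
        have := chi_pos_lt (j + 1) (n - 1) (by omega) hchi
        rw [pow_succ] at this
        omega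
      -- inner claim
      have inner : ∀ c, n - q ≤ c → c < n → q * Nc (j + 1) c + 2 * q ≤ 2 * n := by
        intro c
        induction c using Nat.strong_induction_on with
        | _ c ihc =>
          intro hc1 hc2
          rcases Nat.eq_or_lt_of_le hc1 with hceq | hcgt
          · have := (ih c hc2 (by omega)).2 (by omega)
            omega
          · have hnot : chi (j + 1) (c - 1) = 0 := by
              by_contra hcc
              have hc1' : chi (j + 1) (c - 1) = 1 := by
                have := chi_le_one (j + 1) (c - 1); omega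
              have := chi_gap j (c - 1) (n - 1) (by omega) (by omega) hc1' hchi
              omega
            obtain ⟨a', b', hb', hab', hs', hN'⟩ := Nc_exists (j + 1) c (by omega)
            rw [hnot] at hN'
            have hN'' : Nc (j + 1) c = Nc (j + 1) a' + Nc (j + 1) b' := by rw [hN']; ring
            rw [hN'', Nat.mul_add]
            rcases Nat.lt_or_ge b' q with hb'q | hb'q
            · have hbz := (ih b' (by omega) hb').1 (by omega)
              rw [hbz, Nat.mul_zero, Nat.add_zero]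
              rcases Nat.lt_or_ge a' (n - q) with ha'q | ha'q
              · rcases Nat.lt_or_ge a' q with ha'q2 | ha'q2
                · have haz := (ih a' (by omega) (by omega)).1 (by omega)
                  rw [haz]; omega
                · have haz := (ih a' (by omega) (by omega)).2 (by omega)
                  omega
              · exact ihc a' (by omega) ha'q (by omega)
            · have h1' := (ih a' (by omega) (by omega)).2 (by omega)
              have h2' := (ih b' (by omega) (by omega)).2 (by omega)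
              omega
      rw [hN, hchi, Nat.mul_add, Nat.mul_add, Nat.mul_one]
      rcases Nat.lt_or_ge b q with hbq | hbq
      · have hbz := (ih b (by omega) hb).1 (by omega)
        rw [hbz, Nat.mul_zero, Nat.add_zero]
        have := inner a (by omega) (by omega)
        omega
      · have h1' := (ih a (by omega) (by omega)).2 (by omega)
        have h2' := (ih b (by omega) (by omega)).2 (by omega)
        omega
    · have hchi0 : chi (j + 1) (n - 1) = 0 := by
        have := chi_le_one (j + 1) (n - 1); omega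
      rw [hN, hchi0, Nat.zero_add, Nat.mul_add]
      rcases Nat.lt_or_ge b q with hbq | hbq
      · have hbz := (ih b (by omega) hb).1 (by omega)
        rw [hbz, Nat.mul_zero, Nat.add_zero]
        rcases Nat.lt_or_ge a q with haq | haq
        · have haz := (ih a (by omega) (by omega)).1 (by omega)
          rw [haz]; omega
        · have haz := (ih a (by omega) (by omega)).2 (by omega)
          omega
      · have h1' := (ih a (by omega) (by omega)).2 (by omega)
        have h2' := (ih b (by omega) (by omega)).2 (by omega)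
        omega

/-- Total weight over the levels below `J`. -/
noncomputable def Wt (J n : ℕ) : ℕ := ∑ j ∈ range J, Nc j n

theorem Wt_add_le (J a b : ℕ) (ha : 1 ≤ a) (hb : 1 ≤ b) :
    (∑ j ∈ range J, chi j (a + b - 1)) + (Wt J a + Wt J b) ≤ Wt J (a + b) := by
  unfold Wt
  rw [← Finset.sum_add_distrib, ← Finset.sum_add_distrib]
  exact Finset.sum_le_sum fun j _ => Nc_add_le j a b ha hb

theorem le_two_pow_chi (m J : ℕ) (h : e m ≤ 2 ^ J) :
    e m ≤ 2 ^ (∑ j ∈ range J, chi j m) := by
  induction J with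
  | zero => simpa using h
  | succ J ih =>
    rw [Finset.sum_range_succ]
    rcases le_or_gt (e m) (2 ^ J) with h1 | h1
    · refine (ih h1).trans ?_
      exact pow_le_pow_right₀ (by norm_num) (Nat.le_add_right _ _)
    · have hall : ∀ j ∈ range J, chi j m = 1 := by
        intro j hj
        unfold chi
        rw [if_pos]
        refine lt_of_le_of_lt ?_ h1
        exact pow_le_pow_right₀ (by norm_num) (Finset.mem_range.1 hj).le
      have hJ : chi J m = 1 := by unfold chi; rw [if_pos h1]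
      rw [Finset.sum_congr rfl hall, hJ]
      simpa using h

theorem Nc_real_le (i n : ℕ) (hn : 1 ≤ n) : (Nc (i + 1) n : ℝ) ≤ 2 * n * (1 / 2) ^ i := by
  have h : 2 ^ i * Nc (i + 1) n ≤ 2 * n := by
    obtain ⟨h1, h2⟩ := Nc_count i n hn
    rcases le_total n (2 ^ i) with h | h
    · rw [h1 h]; omega
    · exact le_trans (Nat.le_add_right _ _) (h2 h)
  have h' : (2:ℝ) ^ i * Nc (i + 1) n ≤ 2 * n := by exact_mod_cast h
  have h2 : (0:ℝ) < 2 ^ i := by positivity
  rw [one_div, inv_pow, ← div_eq_mul_inv, le_div_iff₀ h2, mul_comm]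
  exact h'

theorem Wt_le (J n : ℕ) (hn : 1 ≤ n) : Wt J n ≤ 5 * n := by
  have hreal : (Wt J n : ℝ) ≤ 5 * n := by
    unfold Wt
    cases J with
    | zero => simp
    | succ J =>
      rw [Finset.sum_range_succ']
      push_cast
      have h0 : (Nc 0 n : ℝ) ≤ n := by
        have := Nc_zero_le 0 n hn
        exact_mod_cast (by omega : Nc 0 n ≤ n)
      have h1 : ∑ j ∈ range J, (Nc (j + 1) n : ℝ) ≤ 4 * n := by
        calc ∑ j ∈ range J, (Nc (j + 1) n : ℝ)
            ≤ ∑ j ∈ range J, 2 * (n:ℝ) * (1 / 2) ^ j :=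
              Finset.sum_le_sum fun j _ => Nc_real_le j n hn
          _ = 2 * (n:ℝ) * ∑ j ∈ range J, (1 / 2 : ℝ) ^ j := by rw [Finset.mul_sum]
          _ ≤ 2 * (n:ℝ) * 2 := by
              apply mul_le_mul_of_nonneg_left _ (by positivity)
              have := sum_geometric_two_le J
              simpa using this
          _ = 4 * n := by ring
      linarith
  exact_mod_cast hreal

/-- The majorant sequence. -/
noncomputable def S : ℕ → ℝ
  | 0 => 0
  | 1 => 1
  | (n + 2) => 2 * e (n + 1) * ∑ k : Fin (n + 1), S (k.1 + 1) * S (n + 1 - k.1)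
termination_by n => n
decreasing_by
  · omega
  · omega

theorem S_nonneg (n : ℕ) : 0 ≤ S n := by
  induction n using Nat.strong_induction_on with
  | _ n ih =>
    match n, ih with
    | 0, _ => simp [S]
    | 1, _ => simp [S]
    | (n + 2), ih =>
      rw [S]
      apply mul_nonneg (mul_nonneg (by norm_num) (e_nonneg _))
      apply Finset.sum_nonneg
      intro k _
      have hk := k.2
      exact mul_nonneg (ih _ (by omega)) (ih _ (by omega))

theorem S_le_aux (J n : ℕ) (hn : 1 ≤ n) (hJ : n ≤ J) :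
    S n ≤ (2 ^ (n - 1) * catalan (n - 1) : ℕ) * (2:ℝ) ^ (Wt J n) := by
  induction n using Nat.strong_induction_on with
  | _ n ih =>
    match n, hn, ih with
    | 1, _, _ =>
      simp only [S]
      simp
      exact one_le_pow₀ (by norm_num)
    | (n + 2), _, ih =>
      rw [S]
      have hel : e (n + 1) ≤ 2 ^ (∑ j ∈ range J, chi j (n + 1)) := by
        apply le_two_pow_chi
        calc e (n + 1) ≤ ((n + 1 : ℕ) : ℝ) := e_le _ (by omega)
          _ ≤ (2:ℝ) ^ (n + 1) := by
            exact_mod_cast (Nat.lt_two_pow_self).le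
          _ ≤ 2 ^ J := pow_le_pow_right₀ (by norm_num) (by omega)
      have hterm : ∀ k : Fin (n + 1), 2 * e (n + 1) * (S (k.1 + 1) * S (n + 1 - k.1)) ≤
          2 * (2 ^ n * (catalan k.1 * catalan (n - k.1) : ℕ)) * (2:ℝ) ^ (Wt J (n + 2)) := by
        intro k
        have hk := k.2
        have h1 := ih (k.1 + 1) (by omega) (by omega) (by omega)
        have h2 := ih (n + 1 - k.1) (by omega) (by omega) (by omega)
        have h3 := Wt_add_le J (k.1 + 1) (n + 1 - k.1) (by omega) (by omega)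
        have h4 : k.1 + 1 + (n + 1 - k.1) = n + 2 := by omega
        have h5 : n + 1 - k.1 - 1 = n - k.1 := by omega
        rw [h4] at h3
        rw [h5] at h2
        have h6 : n + 2 - 1 = n + 1 := by omega
        rw [h6] at h3
        have hS1 := S_nonneg (k.1 + 1)
        have hS2 := S_nonneg (n + 1 - k.1)
        calc 2 * e (n + 1) * (S (k.1 + 1) * S (n + 1 - k.1))
            ≤ 2 * 2 ^ (∑ j ∈ range J, chi j (n + 1)) *
              (((2 ^ (k.1 + 1 - 1) * catalan (k.1 + 1 - 1) : ℕ) * (2:ℝ) ^ (Wt J (k.1 + 1))) *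
              ((2 ^ (n - k.1) * catalan (n - k.1) : ℕ) * (2:ℝ) ^ (Wt J (n + 1 - k.1)))) := by
              gcongr
          _ = 2 * (2 ^ n * (catalan k.1 * catalan (n - k.1) : ℕ)) *
              (2:ℝ) ^ ((∑ j ∈ range J, chi j (n + 1)) +
                (Wt J (k.1 + 1) + Wt J (n + 1 - k.1))) := by
              push_cast
              have h7 : (2:ℝ) ^ n = 2 ^ (k.1) * 2 ^ (n - k.1) := by
                rw [← pow_add]; congr 1; omega
              rw [h7, pow_add, pow_add]
              ring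
          _ ≤ 2 * (2 ^ n * (catalan k.1 * catalan (n - k.1) : ℕ)) *
              (2:ℝ) ^ (Wt J (n + 2)) := by
              apply mul_le_mul_of_nonneg_left _ (by positivity)
              exact pow_le_pow_right₀ (by norm_num) h3
      rw [Finset.mul_sum]
      calc ∑ k : Fin (n + 1), 2 * e (n + 1) * (S (k.1 + 1) * S (n + 1 - k.1))
          ≤ ∑ k : Fin (n + 1), 2 * (2 ^ n * (catalan k.1 * catalan (n - k.1) : ℕ)) *
            (2:ℝ) ^ (Wt J (n + 2)) := Finset.sum_le_sum fun k _ => hterm k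
        _ = (2 ^ (n + 2 - 1) * catalan (n + 2 - 1) : ℕ) * (2:ℝ) ^ (Wt J (n + 2)) := by
            have h8 : n + 2 - 1 = n + 1 := by omega
            rw [← Finset.sum_mul, ← Finset.mul_sum, ← Finset.mul_sum, h8, catalan_succ]
            push_cast
            ring

/-- Siegel's estimate: the majorant sequence grows at most geometrically. -/
theorem S_le (n : ℕ) : S n ≤ 256 ^ n := by
  rcases Nat.eq_zero_or_pos n with h | h
  · subst h; simp [S]
  · have h1 := S_le_aux n n h le_rfl
    have h2 : catalan (n - 1) ≤ 4 ^ n := by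
      rw [catalan_eq_centralBinom_div]
      calc (n - 1).centralBinom / (n - 1 + 1) ≤ (n - 1).centralBinom := Nat.div_le_self _ _
        _ ≤ 4 ^ (n - 1) := Nat.centralBinom_le_four_pow _
        _ ≤ 4 ^ n := Nat.pow_le_pow_right (by norm_num) (by omega)
    have h3 : (2:ℕ) ^ (n - 1) ≤ 2 ^ n := Nat.pow_le_pow_right (by norm_num) (by omega)
    have h4 : (2:ℝ) ^ (Wt n n) ≤ 2 ^ (5 * n) :=
      pow_le_pow_right₀ (by norm_num) (Wt_le n n h)
    have h5 : ((2 ^ (n - 1) * catalan (n - 1) : ℕ) : ℝ) ≤ 2 ^ n * 4 ^ n := by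
      exact_mod_cast Nat.mul_le_mul h3 h2
    calc S n ≤ (2 ^ (n - 1) * catalan (n - 1) : ℕ) * (2:ℝ) ^ (Wt n n) := h1
      _ ≤ (2 ^ n * 4 ^ n) * 2 ^ (5 * n) := by
          apply mul_le_mul h5 h4 (by positivity) (by positivity)
      _ = 256 ^ n := by
          rw [pow_mul, ← mul_pow, ← mul_pow]
          norm_num

end Pool.Agent.H703R2.SmallDiv
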