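import Mathlib
import Pool.Agent.H703R2.SmallDiv

/-!
A Siegel domain for the quadratic map `(z, w) ↦ (w + z ^ 2, κ z + w ^ 2 / 2000)`.
-/

namespace Pool.Agent.H703R2.SiegelDom

open Pool.Agent.H703R2.SmallDiv Finset Topology

abbrev E := ℂ × ℂ

/-- linear part -/
noncomputable def A (v : E) : E := (v.2, kap * v.1)

/-- coefficient of the quadratic part -/
noncomputable def cE : E := (1, 1 / 2000)

/-- The affine map. -/
noncomputable def f (v : E) : E := (v.2 + v.1 ^ 2, kap * v.1 + (1 / 2000 : ℂ) * v.2 ^ 2)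

theorem f_eq (v : E) : f v = A v + cE * (v * v) := by
  ext <;> simp [f, A, cE] <;> ring

theorem norm_cE : ‖cE‖ ≤ 1 := by
  unfold cE
  rw [Prod.norm_def]
  simp
  norm_num

theorem norm_A (v : E) : ‖A v‖ = ‖v‖ := by
  unfold A
  rw [Prod.norm_def, Prod.norm_def]
  simp [norm_kap, max_comm]

theorem A_add (u v : E) : A (u + v) = A u + A v := by
  ext <;> simp [A]; ring

theorem A_sub (u v : E) : A (u - v) = A u - A v := by
  ext <;> simp [A]; ring

theorem A_smul (t : ℂ) (v : E) : A (t • v) = t • A v := by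
  ext <;> simp [A]; ring

theorem A_A (v : E) : A (A v) = kap • v := by
  ext <;> simp [A]

/-- inverse of the linear part -/
noncomputable def Ai (v : E) : E := (kap⁻¹ * v.2, v.1)

theorem A_Ai (v : E) : A (Ai v) = v := by
  ext <;> simp [A, Ai, kap_ne_zero]

theorem norm_Ai (v : E) : ‖Ai v‖ = ‖v‖ := by
  rw [← norm_A, A_Ai]

/-- Homogeneous components of the linearization. -/
noncomputable def H : ℕ → E → E
  | 0 => fun _ => 0
  | 1 => fun v => v
  | (n + 2) => fun v => (kap ^ (n + 2) - kap)⁻¹ •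
      ((∑ k : Fin (n + 1), cE * (H (k.1 + 1) (A v) * H (n + 1 - k.1) (A v))) +
        A (∑ k : Fin (n + 1), cE * (H (k.1 + 1) v * H (n + 1 - k.1) v)))
termination_by n => n
decreasing_by
  all_goals omega

/-- The quadratic term. -/
noncomputable def G (n : ℕ) (v : E) : E :=
  ∑ k : Fin (n + 1), cE * (H (k.1 + 1) v * H (n + 1 - k.1) v)

theorem H_succ (n : ℕ) (v : E) :
    H (n + 2) v = (kap ^ (n + 2) - kap)⁻¹ • (G n (A v) + A (G n v)) := by
  rw [H]; rfl

theorem H_smul (n : ℕ) (t : ℂ) (v : E) : H n (t • v) = t ^ n • H n v := by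
  induction n using Nat.strong_induction_on generalizing v with
  | _ n ih =>
    match n, ih with
    | 0, _ => simp [H]
    | 1, _ => simp [H]
    | (n + 2), ih =>
      have hG : ∀ w : E, G n (t • w) = t ^ (n + 2) • G n w := by
        intro w
        unfold G
        rw [Finset.smul_sum]
        refine Finset.sum_congr rfl fun k _ => ?_
        have hk := k.2
        rw [ih (k.1 + 1) (by omega), ih (n + 1 - k.1) (by omega)]
        have : t ^ (n + 2) = t ^ (k.1 + 1) * t ^ (n + 1 - k.1) := by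
          rw [← pow_add]; congr 1; omega
        rw [this, smul_mul_smul_comm, mul_smul_comm]
      rw [H_succ, H_succ, A_smul, hG, hG, A_smul, ← smul_add, smul_comm]

theorem G_smul (n : ℕ) (t : ℂ) (w : E) : G n (t • w) = t ^ (n + 2) • G n w := by
  unfold G
  rw [Finset.smul_sum]
  refine Finset.sum_congr rfl fun k _ => ?_
  have hk := k.2
  rw [H_smul (k.1 + 1), H_smul (n + 1 - k.1)]
  have : t ^ (n + 2) = t ^ (k.1 + 1) * t ^ (n + 1 - k.1) := by
    rw [← pow_add]; congr 1; omega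
  rw [this, smul_mul_smul_comm, mul_smul_comm]

theorem div_eq (n : ℕ) : kap ^ (n + 2) - kap = kap * (kap ^ (n + 1) - 1) := by ring

theorem norm_div (n : ℕ) : ‖(kap ^ (n + 2) - kap)⁻¹‖ = e (n + 1) := by
  rw [div_eq, norm_inv, norm_mul, norm_kap, one_mul]; rfl

theorem div_ne (n : ℕ) : kap ^ (n + 2) - kap ≠ 0 := by
  rw [div_eq]
  refine mul_ne_zero kap_ne_zero ?_
  intro h
  have := norm_pos (n + 1) (by omega)
  rw [h] at this
  simp at this

/-- The homological equation. -/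
theorem H_eq (n : ℕ) (v : E) : H (n + 2) (A v) = A (H (n + 2) v) + G n v := by
  rw [H_succ, H_succ, A_A, G_smul, A_smul, A_add, A_A, smul_add, smul_add, smul_smul]
  have h := div_ne n
  have h1 : ((kap ^ (n + 2) - kap)⁻¹ * kap ^ (n + 2)) • G n v
      = ((kap ^ (n + 2) - kap)⁻¹ * kap) • G n v + G n v := by
    have h2 : (kap ^ (n + 2) - kap)⁻¹ * kap ^ (n + 2) = (kap ^ (n + 2) - kap)⁻¹ * kap + 1 := by
      have := inv_mul_cancel₀ h
      linear_combination this
    rw [h2, add_smul, one_smul]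
  rw [smul_smul, h1]
  abel

theorem norm_cmul (a b : E) : ‖cE * (a * b)‖ ≤ ‖a‖ * ‖b‖ := by
  calc ‖cE * (a * b)‖ ≤ ‖cE‖ * ‖a * b‖ := norm_mul_le _ _
    _ ≤ 1 * (‖a‖ * ‖b‖) := mul_le_mul norm_cE (norm_mul_le _ _) (norm_nonneg _) (by norm_num)
    _ = ‖a‖ * ‖b‖ := one_mul _

theorem norm_H_le (r : ℝ) (hr : 0 ≤ r) (n : ℕ) (v : E) (hv : ‖v‖ ≤ r) :
    ‖H n v‖ ≤ S n * r ^ n := by
  induction n using Nat.strong_induction_on generalizing v with
  | _ n ih =>
    match n, ih with
    | 0, _ => simp [H, S]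
    | 1, _ => simpa [H, S] using hv
    | (n + 2), ih =>
      have hG : ∀ w : E, ‖w‖ ≤ r → ‖G n w‖ ≤
          (∑ k : Fin (n + 1), S (k.1 + 1) * S (n + 1 - k.1)) * r ^ (n + 2) := by
        intro w hw
        unfold G
        rw [Finset.sum_mul]
        refine (norm_sum_le _ _).trans (Finset.sum_le_sum fun k _ => ?_)
        have hk := k.2
        refine (norm_cmul _ _).trans ?_
        have h1 := ih (k.1 + 1) (by omega) w hw
        have h2 := ih (n + 1 - k.1) (by omega) w hw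
        have h3 : r ^ (n + 2) = r ^ (k.1 + 1) * r ^ (n + 1 - k.1) := by
          rw [← pow_add]; congr 1; omega
        calc ‖H (k.1 + 1) w‖ * ‖H (n + 1 - k.1) w‖
            ≤ (S (k.1 + 1) * r ^ (k.1 + 1)) * (S (n + 1 - k.1) * r ^ (n + 1 - k.1)) :=
              mul_le_mul h1 h2 (norm_nonneg _)
                (mul_nonneg (S_nonneg _) (pow_nonneg hr _))
          _ = S (k.1 + 1) * S (n + 1 - k.1) * r ^ (n + 2) := by rw [h3]; ring
      rw [H_succ, norm_smul, norm_div, S]
      have h1 := hG (A v) (by rw [norm_A]; exact hv)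
      have h2 := hG v hv
      have h3 : ‖G n (A v) + A (G n v)‖ ≤
          2 * ((∑ k : Fin (n + 1), S (k.1 + 1) * S (n + 1 - k.1)) * r ^ (n + 2)) := by
        refine (norm_add_le _ _).trans ?_
        rw [norm_A]
        linarith
      calc e (n + 1) * ‖G n (A v) + A (G n v)‖
          ≤ e (n + 1) *
            (2 * ((∑ k : Fin (n + 1), S (k.1 + 1) * S (n + 1 - k.1)) * r ^ (n + 2))) :=
            mul_le_mul_of_nonneg_left h3 (e_nonneg _)
        _ = 2 * e (n + 1) * (∑ k : Fin (n + 1), S (k.1 + 1) * S (n + 1 - k.1)) * r ^ (n + 2) := by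
            ring

theorem lip_H (r : ℝ) (hr : 0 ≤ r) (n : ℕ) (u v : E) (hu : ‖u‖ ≤ r) (hv : ‖v‖ ≤ r) :
    ‖H n u - H n v‖ ≤ n * S n * r ^ (n - 1) * ‖u - v‖ := by
  induction n using Nat.strong_induction_on generalizing u v with
  | _ n ih =>
    match n, ih with
    | 0, _ => simp [H]
    | 1, _ => simp [H, S]
    | (n + 2), ih =>
      have hG : ∀ u v : E, ‖u‖ ≤ r → ‖v‖ ≤ r → ‖G n u - G n v‖ ≤
          (∑ k : Fin (n + 1), S (k.1 + 1) * S (n + 1 - k.1)) *
            ((n + 2 : ℕ) * r ^ (n + 1) * ‖u - v‖) := by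
        intro u v hu hv
        unfold G
        rw [← Finset.sum_sub_distrib, Finset.sum_mul]
        refine (norm_sum_le _ _).trans (Finset.sum_le_sum fun k _ => ?_)
        have hk := k.2
        have hsplit : cE * (H (k.1 + 1) u * H (n + 1 - k.1) u) -
            cE * (H (k.1 + 1) v * H (n + 1 - k.1) v) =
            cE * ((H (k.1 + 1) u - H (k.1 + 1) v) * H (n + 1 - k.1) u) +
            cE * (H (k.1 + 1) v * (H (n + 1 - k.1) u - H (n + 1 - k.1) v)) := by ring
        rw [hsplit]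
        refine (norm_add_le _ _).trans ?_
        have h1 := ih (k.1 + 1) (by omega) u v hu hv
        have h2 := ih (n + 1 - k.1) (by omega) u v hu hv
        have b1 := norm_H_le r hr (k.1 + 1) v hv
        have b2 := norm_H_le r hr (n + 1 - k.1) u hu
        have e1 : k.1 + 1 - 1 = k.1 := by omega
        have e2 : n + 1 - k.1 - 1 = n - k.1 := by omega
        rw [e1] at h1
        rw [e2] at h2
        have p1 : r ^ (n + 1) = r ^ (k.1) * r ^ (n + 1 - k.1) := by
          rw [← pow_add]; congr 1; omega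
        have p2 : r ^ (n + 1) = r ^ (k.1 + 1) * r ^ (n - k.1) := by
          rw [← pow_add]; congr 1; omega
        have s1 := S_nonneg (k.1 + 1)
        have s2 := S_nonneg (n + 1 - k.1)
        have c1 : ‖cE * ((H (k.1 + 1) u - H (k.1 + 1) v) * H (n + 1 - k.1) u)‖ ≤
            ((k.1 + 1 : ℕ) * S (k.1 + 1) * r ^ (k.1) * ‖u - v‖) *
              (S (n + 1 - k.1) * r ^ (n + 1 - k.1)) :=
          (norm_cmul _ _).trans (mul_le_mul h1 b2 (norm_nonneg _) (by positivity))
        have c2 : ‖cE * (H (k.1 + 1) v * (H (n + 1 - k.1) u - H (n + 1 - k.1) v))‖ ≤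
            (S (k.1 + 1) * r ^ (k.1 + 1)) *
            ((n + 1 - k.1 : ℕ) * S (n + 1 - k.1) * r ^ (n - k.1) * ‖u - v‖) :=
          (norm_cmul _ _).trans (mul_le_mul b1 h2 (norm_nonneg _) (by positivity))
        have hcast : ((n + 2 : ℕ) : ℝ) = ((k.1 + 1 : ℕ) : ℝ) + ((n + 1 - k.1 : ℕ) : ℝ) := by
          rw [← Nat.cast_add]; congr 1; omega
        calc _ ≤ ((k.1 + 1 : ℕ) * S (k.1 + 1) * r ^ (k.1) * ‖u - v‖) *
              (S (n + 1 - k.1) * r ^ (n + 1 - k.1)) + (S (k.1 + 1) * r ^ (k.1 + 1)) *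
            ((n + 1 - k.1 : ℕ) * S (n + 1 - k.1) * r ^ (n - k.1) * ‖u - v‖) := add_le_add c1 c2
          _ = ((k.1 + 1 : ℕ) : ℝ) * (S (k.1 + 1) * S (n + 1 - k.1)) *
                (r ^ (k.1) * r ^ (n + 1 - k.1)) * ‖u - v‖ +
              ((n + 1 - k.1 : ℕ) : ℝ) * (S (k.1 + 1) * S (n + 1 - k.1)) *
                (r ^ (k.1 + 1) * r ^ (n - k.1)) * ‖u - v‖ := by ring
          _ = S (k.1 + 1) * S (n + 1 - k.1) * ((n + 2 : ℕ) * r ^ (n + 1) * ‖u - v‖) := by
              rw [← p1, ← p2, hcast]; ring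
      rw [H_succ, H_succ, ← smul_sub, norm_smul, norm_div, S]
      have h1 := hG (A u) (A v) (by rw [norm_A]; exact hu) (by rw [norm_A]; exact hv)
      rw [← A_sub, norm_A] at h1
      have h2 := hG u v hu hv
      have h3 : ‖G n (A u) + A (G n u) - (G n (A v) + A (G n v))‖ ≤
          2 * ((∑ k : Fin (n + 1), S (k.1 + 1) * S (n + 1 - k.1)) *
            ((n + 2 : ℕ) * r ^ (n + 1) * ‖u - v‖)) := by
        have : G n (A u) + A (G n u) - (G n (A v) + A (G n v)) =
            (G n (A u) - G n (A v)) + A (G n u - G n v) := by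
          rw [A_sub]; abel
        rw [this]
        refine (norm_add_le _ _).trans ?_
        rw [norm_A]
        linarith
      have e3 : n + 2 - 1 = n + 1 := by omega
      rw [e3]
      calc e (n + 1) * ‖G n (A u) + A (G n u) - (G n (A v) + A (G n v))‖
          ≤ e (n + 1) * (2 * ((∑ k : Fin (n + 1), S (k.1 + 1) * S (n + 1 - k.1)) *
            ((n + 2 : ℕ) * r ^ (n + 1) * ‖u - v‖))) :=
            mul_le_mul_of_nonneg_left h3 (e_nonneg _)
        _ = _ := by ring

theorem G_antidiag (n : ℕ) (v : E) :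
    G n v = ∑ p ∈ antidiagonal (n + 2), cE * (H p.1 v * H p.2 v) := by
  rw [Finset.Nat.sum_antidiagonal_eq_sum_range_succ (f := fun i j => cE * (H i v * H j v)),
    Finset.sum_range_succ, Finset.sum_range_succ']
  simp only [Nat.sub_self, Nat.sub_zero]
  have h0 : H 0 v = 0 := by simp [H]
  rw [h0, zero_mul, mul_zero, mul_zero, mul_zero, add_zero, add_zero]
  unfold G
  rw [Finset.sum_range (fun k => cE * (H (k + 1) v * H (n + 2 - (k + 1)) v))]
  refine Finset.sum_congr rfl fun k _ => ?_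
  have : n + 1 - k.1 = n + 2 - (k.1 + 1) := by omega
  rw [this]

/-- the radius -/
noncomputable def r0 : ℝ := 1 / 10 ^ 6

theorem bound_term (n : ℕ) (v : E) (hv : ‖v‖ ≤ r0) : ‖H n v‖ ≤ (256 / 10 ^ 6 : ℝ) ^ n := by
  refine (norm_H_le r0 (by unfold r0; positivity) n v hv).trans ?_
  calc S n * r0 ^ n ≤ 256 ^ n * r0 ^ n :=
        mul_le_mul_of_nonneg_right (S_le n) (by unfold r0; positivity)
    _ = (256 / 10 ^ 6 : ℝ) ^ n := by unfold r0; rw [← mul_pow]; norm_num

theorem summable_norm (v : E) (hv : ‖v‖ ≤ r0) : Summable fun n => ‖H n v‖ :=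
  Summable.of_nonneg_of_le (fun _ => norm_nonneg _) (fun n => bound_term n v hv)
    (summable_geometric_of_lt_one (by norm_num) (by norm_num))

theorem summable_H (v : E) (hv : ‖v‖ ≤ r0) : Summable fun n => H n v :=
  (summable_norm v hv).of_norm

/-- The linearizing map. -/
noncomputable def Psi (v : E) : E := ∑' n, H n v

theorem Psi_eq (v : E) (hv : ‖v‖ ≤ r0) : Psi v = v + ∑' n, H (n + 2) v := by
  unfold Psi
  have h := summable_H v hv
  rw [h.tsum_eq_zero_add, ((summable_nat_add_iff 1).2 h).tsum_eq_zero_add]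
  simp [H]

/-- The linear part as a continuous linear map. -/
noncomputable def AL : E →L[ℂ] E :=
  LinearMap.toContinuousLinearMap
    { toFun := A, map_add' := A_add, map_smul' := A_smul }

theorem AL_apply (v : E) : AL v = A v := rfl

theorem Psi_sq (v : E) (hv : ‖v‖ ≤ r0) :
    HasSum (fun n => G n v) (cE * (Psi v * Psi v)) := by
  have hs := summable_H v hv
  have hsn := summable_norm v hv
  have hsq : Psi v * Psi v = ∑' n, ∑ p ∈ antidiagonal n, H p.1 v * H p.2 v := by
    unfold Psi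
    exact tsum_mul_tsum_eq_tsum_sum_antidiagonal_of_summable_norm hsn hsn
  have hsum_sq : Summable fun n => ∑ p ∈ antidiagonal n, H p.1 v * H p.2 v :=
    (summable_norm_sum_mul_antidiagonal_of_summable_norm hsn hsn).of_norm
  have hHS : HasSum (fun n => ∑ p ∈ antidiagonal n, H p.1 v * H p.2 v) (Psi v * Psi v) := by
    rw [hsq]; exact hsum_sq.hasSum
  have hHS2 : HasSum (fun n => ∑ p ∈ antidiagonal (n + 2), H p.1 v * H p.2 v)
      (Psi v * Psi v) := by
    have h := (hasSum_nat_add_iff' 2).2 hHS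
    have h0 : ∑ p ∈ antidiagonal 0, H p.1 v * H p.2 v = 0 := by simp [H]
    have h1 : ∑ p ∈ antidiagonal 1, H p.1 v * H p.2 v = 0 := by
      simp [H, Finset.Nat.antidiagonal_succ]
    rw [Finset.sum_range_succ, Finset.sum_range_one, h0, h1, add_zero, sub_zero] at h
    exact h
  have h3 := hHS2.mul_left cE
  have h4 : (fun n => G n v) = fun n => cE * ∑ p ∈ antidiagonal (n + 2), H p.1 v * H p.2 v := by
    funext n
    rw [G_antidiag, Finset.mul_sum]
  rw [h4]
  exact h3

/-- The conjugacy equation. -/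
theorem Psi_conj (v : E) (hv : ‖v‖ ≤ r0) : Psi (A v) = f (Psi v) := by
  have hAv : ‖A v‖ ≤ r0 := by rw [norm_A]; exact hv
  have hs := summable_H v hv
  have hsN2 : Summable fun n => H (n + 2) v := (summable_nat_add_iff 2).2 hs
  have hG := Psi_sq v hv
  have hA2 : HasSum (fun n => A (H (n + 2) v)) (A (∑' n, H (n + 2) v)) :=
    hsN2.hasSum.mapL AL
  have hsum := (hA2.add hG).tsum_eq
  rw [f_eq, Psi_eq (A v) hAv, Psi_eq v hv, A_add, add_assoc, ← Psi_eq v hv, ← hsum]
  congr 1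
  exact tsum_congr fun n => H_eq n v

theorem two_pow_ge (n : ℕ) : ((n + 2 : ℕ) : ℝ) ≤ 2 ^ (n + 1) := by
  have : n + 2 ≤ 2 ^ (n + 1) := by
    induction n with
    | zero => norm_num
    | succ n ih => rw [pow_succ]; omega
  exact_mod_cast this

theorem lip_term (n : ℕ) (u v : E) (hu : ‖u‖ ≤ r0) (hv : ‖v‖ ≤ r0) :
    ‖H (n + 2) u - H (n + 2) v‖ ≤ (256 * (512 / 10 ^ 6) * ‖u - v‖) * (1 / 10 : ℝ) ^ n := by
  have hr0 : 0 ≤ r0 := by unfold r0; positivity
  refine (lip_H r0 hr0 (n + 2) u v hu hv).trans ?_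
  have e1 : n + 2 - 1 = n + 1 := by omega
  rw [e1]
  have h1 := two_pow_ge n
  have h2 := S_le (n + 2)
  have hS := S_nonneg (n + 2)
  calc ((n + 2 : ℕ) : ℝ) * S (n + 2) * r0 ^ (n + 1) * ‖u - v‖
      ≤ 2 ^ (n + 1) * 256 ^ (n + 2) * r0 ^ (n + 1) * ‖u - v‖ := by gcongr
    _ = 256 * (512 * r0) ^ (n + 1) * ‖u - v‖ := by
        rw [mul_pow 512 r0]
        have : (512:ℝ) ^ (n + 1) = 2 ^ (n + 1) * 256 ^ (n + 1) := by
          rw [← mul_pow]; norm_num
        rw [this]; ring
    _ = 256 * (512 / 10 ^ 6) * ‖u - v‖ * (512 / 10 ^ 6 : ℝ) ^ n := by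
        unfold r0
        have : (512 * (1 / 10 ^ 6) : ℝ) = 512 / 10 ^ 6 := by ring
        rw [this, pow_succ]; ring
    _ ≤ (256 * (512 / 10 ^ 6) * ‖u - v‖) * (1 / 10 : ℝ) ^ n := by
        apply mul_le_mul_of_nonneg_left _ (by positivity)
        exact pow_le_pow_left₀ (by norm_num) (by norm_num) n

theorem lip_Psi (u v : E) (hu : ‖u‖ ≤ r0) (hv : ‖v‖ ≤ r0) :
    ‖Psi u - Psi v - (u - v)‖ ≤ 1 / 2 * ‖u - v‖ := by
  have hsu : Summable fun n => H (n + 2) u := (summable_nat_add_iff 2).2 (summable_H u hu)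
  have hsv : Summable fun n => H (n + 2) v := (summable_nat_add_iff 2).2 (summable_H v hv)
  have h1 : Psi u - Psi v - (u - v) = ∑' n, (H (n + 2) u - H (n + 2) v) := by
    rw [Psi_eq u hu, Psi_eq v hv, hsu.tsum_sub hsv]; abel
  rw [h1]
  have hgeo : HasSum (fun n : ℕ => (256 * (512 / 10 ^ 6) * ‖u - v‖) * (1 / 10 : ℝ) ^ n)
      ((256 * (512 / 10 ^ 6) * ‖u - v‖) * (1 - 1 / 10)⁻¹) :=
    (hasSum_geometric_of_lt_one (by norm_num) (by norm_num)).mul_left _
  refine (tsum_of_norm_bounded hgeo fun n => lip_term n u v hu hv).trans ?_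
  have := norm_nonneg (u - v)
  nlinarith

theorem Psi_zero : Psi 0 = 0 := by
  unfold Psi
  have : ∀ n, H n 0 = 0 := by
    intro n
    have h := norm_H_le 0 le_rfl n 0 (by simp)
    rcases Nat.eq_zero_or_pos n with h0 | h0
    · subst h0; simp [H]
    · rw [zero_pow (by omega), mul_zero] at h
      exact norm_le_zero_iff.1 h
  simp [this]

/-- The Siegel domain: a neighbourhood of `0` consisting of small vectors, each of which has a
preimage in the neighbourhood. -/
theorem exists_dom : ∃ N : Set E, N ∈ 𝓝 (0 : E) ∧ (∀ v ∈ N, ‖v‖ ≤ 1 / 8) ∧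
    (∀ v ∈ N, ∃ u ∈ N, f u = v) := by
  have hr0 : 0 < r0 := by unfold r0; positivity
  refine ⟨Psi '' Metric.ball 0 r0, ?_, ?_, ?_⟩
  · have happ : ApproximatesLinearOn Psi
        ((ContinuousLinearEquiv.refl ℂ E : E ≃L[ℂ] E) : E →L[ℂ] E) (Metric.ball 0 r0) (1 / 2) := by
      intro u hu v hv
      have := lip_Psi u v (by simpa using (Metric.mem_ball.1 hu).le)
        (by simpa using (Metric.mem_ball.1 hv).le)
      simpa using this
    have hmem : Metric.ball (0:E) r0 ∈ 𝓝 (0:E) := Metric.ball_mem_nhds _ hr0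
    have := happ.image_mem_nhds
      ((ContinuousLinearEquiv.refl ℂ E : E ≃L[ℂ] E).toNonlinearRightInverse) hmem ?_
    · rwa [Psi_zero] at this
    · right
      have h1 : ((ContinuousLinearEquiv.refl ℂ E).toNonlinearRightInverse).nnnorm ≤ 1 := by
        change ‖((ContinuousLinearEquiv.refl ℂ E).symm : E →L[ℂ] E)‖₊ ≤ 1
        exact ContinuousLinearMap.norm_id_le
      have h2 : (1:NNReal) ≤ (((ContinuousLinearEquiv.refl ℂ E).toNonlinearRightInverse).nnnorm)⁻¹ := by
        rw [one_le_inv₀]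
        · exact h1
        · change 0 < ‖((ContinuousLinearEquiv.refl ℂ E).symm : E →L[ℂ] E)‖₊
          have : ((ContinuousLinearEquiv.refl ℂ E).symm : E →L[ℂ] E) = ContinuousLinearMap.id ℂ E := rfl
          rw [this, ← NNReal.coe_pos, coe_nnnorm, ContinuousLinearMap.norm_id]
          norm_num
      refine lt_of_lt_of_le ?_ h2
      rw [← NNReal.coe_lt_coe]
      norm_num
  · rintro _ ⟨u, hu, rfl⟩
    have hu' : ‖u‖ ≤ r0 := by simpa using (Metric.mem_ball.1 hu).le
    have h := lip_Psi u 0 hu' (by simpa using hr0.le)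
    rw [Psi_zero, sub_zero, sub_zero] at h
    have h2 : ‖Psi u‖ ≤ ‖Psi u - u‖ + ‖u‖ := by
      have : Psi u = (Psi u - u) + u := by abel
      calc ‖Psi u‖ = ‖(Psi u - u) + u‖ := by rw [← this]
        _ ≤ _ := norm_add_le _ _
    unfold r0 at hu'
    norm_num at hu'
    linarith
  · rintro _ ⟨u, hu, rfl⟩
    have hu' : ‖u‖ < r0 := by simpa using Metric.mem_ball.1 hu
    refine ⟨Psi (Ai u), ⟨Ai u, ?_, rfl⟩, ?_⟩
    · simpa [norm_Ai] using hu'
    · rw [← Psi_conj (Ai u) (by rw [norm_Ai]; exact hu'.le), A_Ai]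

end Pool.Agent.H703R2.SiegelDom
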