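import Mathlib
import Pool.Agent.H703R2.SiegelDom

/-!
Backward invariant sets of the map `(z, w) ↦ (w + z ^ 2, κ z + w ^ 2 / 2000)`.
-/

namespace Pool.Agent.H703R2.FarPart

open Pool.Agent.H703R2.SmallDiv Pool.Agent.H703R2.SiegelDom Topology

/-- The far region, open version. -/
def R : Set E := {v | 10 < ‖v.1‖ ∧ ‖v.1‖ ^ 2 < 4000 ∧ ‖v.2 + v.1 ^ 2‖ < ‖v.1‖ ^ 2 / 8}

/-- The far region, closed version. -/
def Rb : Set E := {v | 10 ≤ ‖v.1‖ ∧ ‖v.1‖ ^ 2 ≤ 4000 ∧ ‖v.2 + v.1 ^ 2‖ ≤ ‖v.1‖ ^ 2 / 8}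

theorem R_subset : R ⊆ Rb := fun _ h => ⟨h.1.le, h.2.1.le, h.2.2.le⟩

theorem isOpen_R : IsOpen R := by
  have h1 : IsOpen {v : E | 10 < ‖v.1‖} := isOpen_lt continuous_const (by fun_prop)
  have h2 : IsOpen {v : E | ‖v.1‖ ^ 2 < 4000} := isOpen_lt (by fun_prop) continuous_const
  have h3 : IsOpen {v : E | ‖v.2 + v.1 ^ 2‖ < ‖v.1‖ ^ 2 / 8} :=
    isOpen_lt (by fun_prop) (by fun_prop)
  exact h1.inter (h2.inter h3)

theorem isClosed_Rb : IsClosed Rb := by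
  have h1 : IsClosed {v : E | 10 ≤ ‖v.1‖} := isClosed_le continuous_const (by fun_prop)
  have h2 : IsClosed {v : E | ‖v.1‖ ^ 2 ≤ 4000} := isClosed_le (by fun_prop) continuous_const
  have h3 : IsClosed {v : E | ‖v.2 + v.1 ^ 2‖ ≤ ‖v.1‖ ^ 2 / 8} :=
    isClosed_le (by fun_prop) (by fun_prop)
  exact h1.inter (h2.inter h3)

theorem far (v : E) (h : f v ∈ Rb) : v ∈ R := by
  obtain ⟨z, w⟩ := v
  simp only [Rb, f, Set.mem_ofPred_eq] at h
  simp only [R, Set.mem_ofPred_eq]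
  set x := w + z ^ 2 with hx
  set y := kap * z + (1 / 2000 : ℂ) * w ^ 2 with hy
  obtain ⟨h1, h2, h3⟩ := h
  set X := ‖x‖ with hX
  set r := ‖z‖ with hr
  have hr0 : 0 ≤ r := norm_nonneg _
  have hX0 : 0 ≤ X := norm_nonneg _
  have hz2 : ‖z ^ 2‖ = r ^ 2 := by rw [norm_pow]
  have hx2 : ‖x ^ 2‖ = X ^ 2 := by rw [norm_pow]
  have hw_up : ‖w‖ ≤ X + r ^ 2 := by
    have : w = x - z ^ 2 := by rw [hx]; ring
    calc ‖w‖ = ‖x - z ^ 2‖ := by rw [← this]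
      _ ≤ ‖x‖ + ‖z ^ 2‖ := norm_sub_le _ _
      _ = X + r ^ 2 := by rw [hz2]
  have hw_lo : r ^ 2 - X ≤ ‖w‖ := by
    have : z ^ 2 = x - w := by rw [hx]; ring
    have h4 : ‖z ^ 2‖ ≤ ‖x‖ + ‖w‖ := by rw [this]; exact norm_sub_le _ _
    rw [hz2] at h4
    linarith
  have hy_up : ‖y‖ ≤ 9 / 8 * X ^ 2 := by
    have : y = (y + x ^ 2) - x ^ 2 := by ring
    have h4 : ‖y‖ ≤ ‖y + x ^ 2‖ + ‖x ^ 2‖ := by
      calc ‖y‖ = ‖(y + x ^ 2) - x ^ 2‖ := by rw [← this]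
        _ ≤ _ := norm_sub_le _ _
    rw [hx2] at h4
    linarith
  have hy_lo : 7 / 8 * X ^ 2 ≤ ‖y‖ := by
    have h4 : ‖x ^ 2‖ ≤ ‖y + x ^ 2‖ + ‖y‖ := by
      have : x ^ 2 = (y + x ^ 2) - y := by ring
      calc ‖x ^ 2‖ = ‖(y + x ^ 2) - y‖ := by rw [← this]
        _ ≤ _ := norm_sub_le _ _
    rw [hx2] at h4
    linarith
  have hw2 : ‖(1 / 2000 : ℂ) * w ^ 2‖ = ‖w‖ ^ 2 / 2000 := by
    rw [norm_mul, norm_pow]; norm_num; ring
  have hkz : ‖kap * z‖ = r := by rw [norm_mul, norm_kap, one_mul]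
  have hy_up2 : ‖y‖ ≤ r + ‖w‖ ^ 2 / 2000 := by
    calc ‖y‖ ≤ ‖kap * z‖ + ‖(1 / 2000 : ℂ) * w ^ 2‖ := norm_add_le _ _
      _ = _ := by rw [hw2, hkz]
  have hy_lo2 : ‖w‖ ^ 2 / 2000 - r ≤ ‖y‖ := by
    have : (1 / 2000 : ℂ) * w ^ 2 = y - kap * z := by rw [hy]; ring
    have h4 : ‖(1 / 2000 : ℂ) * w ^ 2‖ ≤ ‖y‖ + ‖kap * z‖ := by
      rw [this]; exact norm_sub_le _ _
    rw [hw2, hkz] at h4
    linarith
  have hw0 : 0 ≤ ‖w‖ := norm_nonneg _
  -- step (i)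
  have s1 : X < r ^ 2 / 8 := by
    by_contra hcon
    push Not at hcon
    have a1 : r ^ 2 ≤ 8 * X := by linarith
    have a2 : ‖w‖ ≤ 9 * X := by linarith
    have a3 : ‖w‖ ^ 2 ≤ 81 * X ^ 2 := by nlinarith
    have a4 : r ≤ X := by nlinarith
    nlinarith
  have s2 : 10 < r := by
    by_contra hcon
    push Not at hcon
    have a2 : ‖w‖ ≤ 9 / 8 * r ^ 2 := by linarith
    have a3 : ‖w‖ ≤ 9 / 8 * 100 := by nlinarith
    have a4 : ‖w‖ ^ 2 ≤ (9 / 8 * 100) ^ 2 := by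
      exact pow_le_pow_left₀ hw0 a3 2
    nlinarith
  have s3 : r ^ 2 < 4000 := by
    by_contra hcon
    push Not at hcon
    have a2 : 7 / 8 * r ^ 2 ≤ ‖w‖ := by linarith
    have a3 : (7 / 8 * r ^ 2) ^ 2 ≤ ‖w‖ ^ 2 := pow_le_pow_left₀ (by positivity) a2 2
    have a4 : 4000 * r ^ 2 ≤ (r ^ 2) ^ 2 := by nlinarith [sq_nonneg r]
    nlinarith
  exact ⟨s2, s3, s1⟩

theorem near (v : E) (h : ‖f v‖ ≤ 1 / 8) : v ∈ R ∨ (‖v.1‖ ≤ 1 ∧ ‖v.2‖ ≤ 2) := by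
  obtain ⟨z, w⟩ := v
  have hx1 : ‖(f (z, w)).1‖ ≤ 1 / 8 := (norm_fst_le _).trans h
  have hy1 : ‖(f (z, w)).2‖ ≤ 1 / 8 := (norm_snd_le _).trans h
  simp only [f] at hx1 hy1
  simp only [R, Set.mem_ofPred_eq]
  set x := w + z ^ 2 with hx
  set y := kap * z + (1 / 2000 : ℂ) * w ^ 2 with hy
  set r := ‖z‖ with hr
  have hr0 : 0 ≤ r := norm_nonneg _
  have hz2 : ‖z ^ 2‖ = r ^ 2 := by rw [norm_pow]
  have hw_up : ‖w‖ ≤ 1 / 8 + r ^ 2 := by
    have : w = x - z ^ 2 := by rw [hx]; ring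
    calc ‖w‖ = ‖x - z ^ 2‖ := by rw [← this]
      _ ≤ ‖x‖ + ‖z ^ 2‖ := norm_sub_le _ _
      _ ≤ 1 / 8 + r ^ 2 := by rw [hz2]; linarith
  have hw_lo : r ^ 2 - 1 / 8 ≤ ‖w‖ := by
    have : z ^ 2 = x - w := by rw [hx]; ring
    have h4 : ‖z ^ 2‖ ≤ ‖x‖ + ‖w‖ := by rw [this]; exact norm_sub_le _ _
    rw [hz2] at h4
    linarith
  have hw2 : ‖(1 / 2000 : ℂ) * w ^ 2‖ = ‖w‖ ^ 2 / 2000 := by
    rw [norm_mul, norm_pow]; norm_num; ring
  have hkz : ‖kap * z‖ = r := by rw [norm_mul, norm_kap, one_mul]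
  have hA : r - 1 / 8 ≤ ‖w‖ ^ 2 / 2000 := by
    have : kap * z = y - (1 / 2000 : ℂ) * w ^ 2 := by rw [hy]; ring
    have h4 : ‖kap * z‖ ≤ ‖y‖ + ‖(1 / 2000 : ℂ) * w ^ 2‖ := by
      rw [this]; exact norm_sub_le _ _
    rw [hw2, hkz] at h4
    linarith
  have hB : ‖w‖ ^ 2 / 2000 ≤ r + 1 / 8 := by
    have : (1 / 2000 : ℂ) * w ^ 2 = y - kap * z := by rw [hy]; ring
    have h4 : ‖(1 / 2000 : ℂ) * w ^ 2‖ ≤ ‖y‖ + ‖kap * z‖ := by
      rw [this]; exact norm_sub_le _ _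
    rw [hw2, hkz] at h4
    linarith
  have hw0 : 0 ≤ ‖w‖ := norm_nonneg _
  rcases le_or_gt r 1 with h1 | h1
  · right
    refine ⟨h1, ?_⟩
    show ‖w‖ ≤ 2
    nlinarith
  · left
    have s1 : ‖x‖ < r ^ 2 / 8 := by nlinarith
    have b1 : 1 / 8 ≤ r ^ 2 / 8 := by nlinarith
    have s2 : 10 < r := by
      by_contra hcon
      push Not at hcon
      have a1 : ‖w‖ ≤ 9 / 8 * r ^ 2 := by linarith
      have a2 : ‖w‖ ^ 2 ≤ (9 / 8 * r ^ 2) ^ 2 := pow_le_pow_left₀ hw0 a1 2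
      have a3 : (r ^ 2) ^ 2 ≤ 1000 * r := by
        have : r ^ 3 ≤ 1000 := by
          calc r ^ 3 ≤ 10 ^ 3 := pow_le_pow_left₀ hr0 hcon 3
            _ = 1000 := by norm_num
        calc (r ^ 2) ^ 2 = r ^ 3 * r := by ring
          _ ≤ 1000 * r := mul_le_mul_of_nonneg_right this hr0
      nlinarith
    have s3 : r ^ 2 < 4000 := by
      have a2 : 7 / 8 * r ^ 2 ≤ ‖w‖ := by linarith
      have a3 : (7 / 8 * r ^ 2) ^ 2 ≤ ‖w‖ ^ 2 := pow_le_pow_left₀ (by positivity) a2 2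
      have a4 : (r ^ 2) ^ 2 = r ^ 3 * r := by ring
      have a5 : r ^ 3 * r ≤ 3000 * r := by nlinarith
      have a6 : r ^ 3 ≤ 3000 := le_of_mul_le_mul_right a5 (by linarith)
      nlinarith
    exact ⟨s2, s3, s1⟩

theorem inj (u v : E) (hu1 : ‖u.1‖ ≤ 1) (hu2 : ‖u.2‖ ≤ 2) (hv1 : ‖v.1‖ ≤ 1) (hv2 : ‖v.2‖ ≤ 2)
    (h : f u = f v) : u = v := by
  obtain ⟨z, w⟩ := u
  obtain ⟨z', w'⟩ := v
  simp only [f, Prod.mk.injEq] at h hu1 hu2 hv1 hv2 ⊢
  obtain ⟨h1, h2⟩ := h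
  have e1 : w - w' = -((z + z') * (z - z')) := by linear_combination h1
  have e2 : kap * (z - z') = -(1 / 2000 : ℂ) * ((w + w') * (w - w')) := by
    linear_combination h2
  have n1 : ‖w - w'‖ ≤ 2 * ‖z - z'‖ := by
    rw [e1, norm_neg, norm_mul]
    apply mul_le_mul_of_nonneg_right _ (norm_nonneg _)
    exact (norm_add_le _ _).trans (by linarith)
  have n2 : ‖z - z'‖ ≤ 1 / 2000 * (4 * ‖w - w'‖) := by
    have : ‖kap * (z - z')‖ = ‖z - z'‖ := by rw [norm_mul, norm_kap, one_mul]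
    rw [← this, e2, norm_mul, norm_neg, norm_mul]
    have h3 : ‖(1 / 2000 : ℂ)‖ = 1 / 2000 := by norm_num
    rw [h3]
    apply mul_le_mul_of_nonneg_left _ (by norm_num)
    apply mul_le_mul_of_nonneg_right _ (norm_nonneg _)
    exact (norm_add_le _ _).trans (by linarith)
  have n3 : ‖z - z'‖ = 0 := by
    have := norm_nonneg (z - z')
    linarith
  have n4 : ‖w - w'‖ = 0 := by
    have := norm_nonneg (w - w')
    linarith
  exact ⟨sub_eq_zero.1 (norm_eq_zero.1 n3), sub_eq_zero.1 (norm_eq_zero.1 n4)⟩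

theorem continuous_f : Continuous f := by
  unfold f
  fun_prop

theorem f_zero : f 0 = 0 := by
  simp [f]

/-- All the affine data of the counterexample. -/
theorem affine_data : ∃ V U K : Set E, IsOpen U ∧ U ⊆ V ∧ K ⊆ U ∧ IsCompact K ∧ (0 : E) ∈ K ∧
    f ⁻¹' K = K ∧ (∀ v, f v ∈ V → v ∈ V) ∧
    (∀ v ∈ V, (1 / 500 : ℂ) * v.1 * v.2 ≠ kap) := by
  obtain ⟨N, hN0, hNs, hNp⟩ := exists_dom
  have hNp1 : ∀ v ∈ N, ‖v.1‖ ≤ 1 / 8 := fun v hv => (norm_fst_le _).trans (hNs v hv)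
  have hNp2 : ∀ v ∈ N, ‖v.2‖ ≤ 1 / 8 := fun v hv => (norm_snd_le _).trans (hNs v hv)
  set W : Set E := {0} ∪ Rb with hW
  have hWclosed : IsClosed W := (isClosed_singleton).union isClosed_Rb
  have hback : ∀ v, f v ∈ W → v ∈ ({0} : Set E) ∪ R := by
    intro v hv
    rcases hv with hv | hv
    · have hv0 : f v = 0 := hv
      rcases near v (by rw [hv0]; simp) with h | h
      · exact Or.inr h
      · left
        exact inj v 0 h.1 h.2 (by simp) (by simp) (by rw [hv0, f_zero])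
    · exact Or.inr (far v hv)
  have hback' : ∀ v, f v ∈ W → v ∈ W := fun v hv =>
    Set.union_subset_union_right _ R_subset (hback v hv)
  set K : Set E := ⋂ n : ℕ, (f^[n]) ⁻¹' W with hK
  have hKW : K ⊆ W := fun v hv => by
    have := Set.mem_iInter.1 hv 0
    simpa using this
  have hKf : f ⁻¹' K = K := by
    ext v
    constructor
    · intro hv
      have hv' : ∀ n : ℕ, f^[n] (f v) ∈ W := fun n => Set.mem_iInter.1 hv n
      refine Set.mem_iInter.2 fun n => ?_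
      cases n with
      | zero => exact hback' v (hv' 0)
      | succ n => exact hv' n
    · intro hv
      refine Set.mem_iInter.2 fun n => ?_
      exact Set.mem_iInter.1 hv (n + 1)
  refine ⟨N ∪ R, interior N ∪ R, K, isOpen_interior.union isOpen_R,
    Set.union_subset_union_left _ interior_subset, ?_, ?_, ?_, hKf, ?_, ?_⟩
  · intro v hv
    have hfv : f v ∈ W := by
      have := Set.mem_iInter.1 hv 1
      simpa using this
    rcases hback v hfv with h | h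
    · left
      rw [Set.mem_singleton_iff.1 h]
      exact mem_interior_iff_mem_nhds.2 hN0
    · exact Or.inr h
  · have hclosed : IsClosed K := isClosed_iInter fun n => hWclosed.preimage (continuous_f.iterate n)
    refine Metric.isCompact_of_isClosed_isBounded hclosed ?_
    refine (Metric.isBounded_closedBall (x := (0:E)) (r := 5000)).subset fun v hv => ?_
    rw [Metric.mem_closedBall, dist_zero_right]
    rcases hKW hv with h | h
    · rw [Set.mem_singleton_iff.1 h]; simp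
    · obtain ⟨a1, a2, a3⟩ := h
      have b1 : ‖v.1‖ ≤ 5000 := by nlinarith
      have b2 : ‖v.2‖ ≤ 5000 := by
        have : v.2 = (v.2 + v.1 ^ 2) - v.1 ^ 2 := by ring
        have h4 : ‖v.2‖ ≤ ‖v.2 + v.1 ^ 2‖ + ‖v.1 ^ 2‖ := by
          calc ‖v.2‖ = ‖(v.2 + v.1 ^ 2) - v.1 ^ 2‖ := by rw [← this]
            _ ≤ _ := norm_sub_le _ _
        rw [norm_pow] at h4
        linarith
      exact max_le b1 b2
  · refine Set.mem_iInter.2 fun n => ?_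
    left
    have : f^[n] (0:E) = 0 := Function.iterate_fixed f_zero n
    exact this
  · intro v hv
    rcases hv with hv | hv
    · obtain ⟨u, huN, hu⟩ := hNp _ hv
      rcases near v (hNs _ hv) with h | h
      · exact Or.inr h
      · left
        have : v = u := inj v u h.1 h.2 ((hNp1 u huN).trans (by norm_num))
          ((hNp2 u huN).trans (by norm_num)) hu.symm
        rw [this]; exact huN
    · exact Or.inr (far v (R_subset hv))
  · intro v hv heq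
    have hn : ‖(1 / 500 : ℂ) * v.1 * v.2‖ = 1 := by rw [heq, norm_kap]
    rw [norm_mul, norm_mul] at hn
    have h5 : ‖(1 / 500 : ℂ)‖ = 1 / 500 := by norm_num
    rw [h5] at hn
    rcases hv with hv | hv
    · have h1 := hNp1 v hv
      have h2 := hNp2 v hv
      have h3 := norm_nonneg v.1
      have h4 := norm_nonneg v.2
      nlinarith
    · obtain ⟨a1, a2, a3⟩ := hv
      have hw_lo : ‖v.1‖ ^ 2 - ‖v.2 + v.1 ^ 2‖ ≤ ‖v.2‖ := by
        have : v.1 ^ 2 = (v.2 + v.1 ^ 2) - v.2 := by ring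
        have h4 : ‖v.1 ^ 2‖ ≤ ‖v.2 + v.1 ^ 2‖ + ‖v.2‖ := by
          calc ‖v.1 ^ 2‖ = ‖(v.2 + v.1 ^ 2) - v.2‖ := by rw [← this]
            _ ≤ _ := norm_sub_le _ _
        rw [norm_pow] at h4
        linarith
      have h6 : 7 / 8 * 100 ≤ ‖v.2‖ := by nlinarith
      nlinarith

end Pool.Agent.H703R2.FarPart
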